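import Pool.Agent.RPB.IRB
import Pool.Agent.RPB.Flow
import Pool.Agent.RPB.ES

open Finset FKB
noncomputable section
namespace RPB

private lemma tau_symm {d L : ℕ} [NeZero L] (q : ℕ) (p : ℝ) (x y : Tor d L) :
    tauT d L q p x y = tauT d L q p y x :=
  E_congr (fun A _ => ind_congr ⟨Conn.symm', Conn.symm'⟩)

private lemma adm_exp {d L : ℕ} [NeZero L] {β : ℝ} (hβ : 0 < β) :
    Adm (TE d L) (fun _ => 1 - Real.exp (-β)) := by
  intro e _
  have h1 : Real.exp (-β) ≤ 1 := by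
    rw [Real.exp_le_one_iff]
    linarith
  have h2 : 0 < Real.exp (-β) := Real.exp_pos _
  exact ⟨by linarith, by linarith⟩

private lemma tau_nonneg {d L q : ℕ} [NeZero L] [NeZero q] {β : ℝ} (hβ : 0 < β)
    (x y : Tor d L) : 0 ≤ tauT d L q (1 - Real.exp (-β)) x y := by
  have hq : 0 < (q : ℝ) := by exact_mod_cast Nat.pos_of_ne_zero (NeZero.ne q)
  exact P_nonneg hq (adm_exp hβ) _

/-- the infrared bound for the random-cluster connection probability -/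
theorem irb_tau {d L q : ℕ} [NeZero L] [NeZero q] (hL : Even L) (hL2 : 2 ≤ L) (hq : 2 ≤ q)
    {β : ℝ} (hβ : 0 < β) (h : Tor d L × Fin d → ℝ) :
    ∑ x, ∑ y, dvg h x * dvg h y * tauT d L q (1 - Real.exp (-β)) x y ≤
      (1 / (q : ℝ) - 1 / (q : ℝ) ^ 2)⁻¹ * (β⁻¹ * ∑ e, h e ^ 2) := by
  have hq0 : (0 : ℝ) < q := by positivity
  have hq2 : (2 : ℝ) ≤ q := by exact_mod_cast hq
  have hc : 0 < 1 / (q : ℝ) - 1 / (q : ℝ) ^ 2 := by
    have : 1 / (q : ℝ) - 1 / (q : ℝ) ^ 2 = (q - 1) / (q : ℝ) ^ 2 := by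
      field_simp
    rw [this]
    apply div_pos <;> nlinarith
  set c := 1 / (q : ℝ) - 1 / (q : ℝ) ^ 2 with hcdef
  have hPW : ∀ s : Tor d L → Fin q, PW q β s =
      ∏ e ∈ TE d L, Real.exp (-β * ind (s e.1 ≠ s e.2)) := by
    intro s
    rw [prod_TE hL2 (fun e => Real.exp (-β * ind (s e.1 ≠ s e.2)))]
    rfl
  set Z : ℝ := ∑ s : Tor d L → Fin q, PW q β s with hZ
  have hZ0 : 0 < Z := by
    apply Finset.sum_pos
    · intro s _
      unfold PW
      exact Finset.prod_pos fun e _ => Real.exp_pos _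
    · exact Finset.univ_nonempty
  have hg : ∑ x, dvg h x = 0 := by
    have := sum_dvg h (fun _ => 1)
    simpa using this.symm
  have hes : ∀ x y : Tor d L, ∑ s : Tor d L → Fin q, PW q β s *
      (ind (s x = 0) * ind (s y = 0)) =
      (1 / (q : ℝ) ^ 2 + c * tauT d L q (1 - Real.exp (-β)) x y) * Z := by
    intro x y
    have := es_two (q := q) (TE d L) hβ.le x y
    rw [hZ]
    simp only [hPW]
    rw [this]
    rfl
  have hirb := irb (q := q) hβ hL h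
  have hexp : ∑ s : Tor d L → Fin q, PW q β s * (∑ x, dvg h x * ind (s x = 0)) ^ 2 =
      c * (∑ x, ∑ y, dvg h x * dvg h y * tauT d L q (1 - Real.exp (-β)) x y) * Z := by
    have e1 : ∀ s : Tor d L → Fin q, PW q β s * (∑ x, dvg h x * ind (s x = 0)) ^ 2 =
        ∑ x, ∑ y, dvg h x * dvg h y * (PW q β s * (ind (s x = 0) * ind (s y = 0))) := by
      intro s
      rw [sq, Finset.sum_mul_sum, Finset.mul_sum]
      refine Finset.sum_congr rfl fun x _ => ?_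
      rw [Finset.mul_sum]
      refine Finset.sum_congr rfl fun y _ => ?_
      ring
    simp only [e1]
    rw [Finset.sum_comm]
    have e2 : ∀ x, ∑ s : Tor d L → Fin q, ∑ y, dvg h x * dvg h y *
        (PW q β s * (ind (s x = 0) * ind (s y = 0))) =
        ∑ y, dvg h x * dvg h y *
          ((1 / (q : ℝ) ^ 2 + c * tauT d L q (1 - Real.exp (-β)) x y) * Z) := by
      intro x
      rw [Finset.sum_comm]
      refine Finset.sum_congr rfl fun y _ => ?_
      rw [← Finset.mul_sum, hes]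
    simp only [e2]
    have e3 : ∀ x y, dvg h x * dvg h y *
          ((1 / (q : ℝ) ^ 2 + c * tauT d L q (1 - Real.exp (-β)) x y) * Z) =
        dvg h x * dvg h y * (1 / (q : ℝ) ^ 2 * Z) +
        c * (dvg h x * dvg h y * tauT d L q (1 - Real.exp (-β)) x y) * Z := by
      intro x y
      ring
    simp only [e3, Finset.sum_add_distrib]
    have e4 : ∑ x, ∑ y, dvg h x * dvg h y * (1 / (q : ℝ) ^ 2 * Z) = 0 := by
      have : ∀ x, ∑ y, dvg h x * dvg h y * (1 / (q : ℝ) ^ 2 * Z) = 0 := by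
        intro x
        rw [← Finset.sum_mul, ← Finset.mul_sum, hg]
        ring
      exact Finset.sum_eq_zero fun x _ => this x
    rw [e4, zero_add]
    simp only [← Finset.sum_mul, ← Finset.mul_sum]
  rw [hexp] at hirb
  have h1 : c * (∑ x, ∑ y, dvg h x * dvg h y * tauT d L q (1 - Real.exp (-β)) x y) ≤
      β⁻¹ * ∑ e, h e ^ 2 := le_of_mul_le_mul_right hirb hZ0
  rw [inv_mul_eq_div, le_div_iff₀ hc]
  linarith

/-- the block average of the torus connection probability -/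
theorem avg_torus {d q : ℕ} (hd : 3 ≤ d) (hq : 2 ≤ q) :
    ∃ C : ℝ, 0 ≤ C ∧ ∀ β : ℝ, 0 < β → ∀ K k : ℕ, 1 ≤ K → k ≤ K →
      (∑ x ∈ blk d (2 ^ K) k, ∑ y ∈ blk d (2 ^ K) k,
          tauT d (2 ^ K) q (1 - Real.exp (-β)) x y) / (((2 : ℝ) ^ k) ^ d) ^ 2 ≤
        2 * (∑ x ∈ blk d (2 ^ K) k, ∑ y, tauT d (2 ^ K) q (1 - Real.exp (-β)) x y) /
          (((2 : ℝ) ^ k) ^ d * ((2 : ℝ) ^ K) ^ d) + C / (β * ((2 : ℝ) ^ k) ^ (d - 2)) := by
  have : NeZero q := ⟨by omega⟩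
  obtain ⟨C, hC, hflow⟩ := flow_exists hd
  have hq0 : (0 : ℝ) < q := by positivity
  have hq2 : (2 : ℝ) ≤ q := by exact_mod_cast hq
  have hc : 0 < 1 / (q : ℝ) - 1 / (q : ℝ) ^ 2 := by
    have : 1 / (q : ℝ) - 1 / (q : ℝ) ^ 2 = (q - 1) / (q : ℝ) ^ 2 := by
      field_simp
    rw [this]
    apply div_pos <;> nlinarith
  refine ⟨(1 / (q : ℝ) - 1 / (q : ℝ) ^ 2)⁻¹ * C, by positivity, ?_⟩
  intro β hβ K k hK hkK
  obtain ⟨h, hh, hen⟩ := hflow K k hkK
  have hL : Even (2 ^ K) := (Nat.even_pow' (by omega)).2 even_two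
  have hL2 : 2 ≤ 2 ^ K := by
    calc 2 = 2 ^ 1 := rfl
      _ ≤ 2 ^ K := Nat.pow_le_pow_right (by norm_num) hK
  have hkey := irb_tau (q := q) hL hL2 hq hβ h
  set τ : Tor d (2 ^ K) → Tor d (2 ^ K) → ℝ :=
    fun x y => tauT d (2 ^ K) q (1 - Real.exp (-β)) x y with hτ
  have hsymm : ∀ x y, τ x y = τ y x := fun x y => tau_symm _ _ _ _
  have hnn : ∀ x y, 0 ≤ τ x y := fun x y => tau_nonneg hβ x y
  set b : ℝ := ((2 : ℝ) ^ k) ^ d with hb
  set v : ℝ := ((2 : ℝ) ^ K) ^ d with hv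
  have hb0 : 0 < b := by positivity
  have hv0 : 0 < v := by positivity
  set B := blk d (2 ^ K) k with hB
  have hsum : ∑ x, ∑ y, dvg h x * dvg h y * τ x y =
      (∑ x ∈ B, ∑ y ∈ B, τ x y) / b ^ 2 - 2 * (∑ x ∈ B, ∑ y, τ x y) / (b * v) +
        (∑ x, ∑ y, τ x y) / v ^ 2 := by
    have hind : ∀ (f : Tor d (2 ^ K) → ℝ), ∑ x, ind (x ∈ B) * f x = ∑ x ∈ B, f x := by
      intro f
      classical
      rw [← Finset.sum_filter_add_sum_filter_not Finset.univ (· ∈ B)]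
      have e1 : ∑ x ∈ Finset.univ.filter (· ∈ B), ind (x ∈ B) * f x = ∑ x ∈ B, f x := by
        rw [Finset.filter_mem_eq_inter, Finset.univ_inter]
        refine Finset.sum_congr rfl fun x hx => ?_
        rw [ind_true hx, one_mul]
      have e2 : ∑ x ∈ Finset.univ.filter (fun x => ¬ x ∈ B), ind (x ∈ B) * f x = 0 := by
        refine Finset.sum_eq_zero fun x hx => ?_
        rw [ind_false (Finset.mem_filter.mp hx).2, zero_mul]
      rw [e1, e2, add_zero]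
    have e0 : ∀ x y, dvg h x * dvg h y * τ x y =
        ind (x ∈ B) * (ind (y ∈ B) * τ x y) / b ^ 2 - ind (x ∈ B) * τ x y / (b * v)
          - ind (y ∈ B) * τ y x / (b * v) + τ x y / v ^ 2 := by
      intro x y
      rw [hh, hh, hsymm y x]
      field_simp
      ring
    simp only [e0, Finset.sum_add_distrib, Finset.sum_sub_distrib]
    have e1 : ∑ x, ∑ y, ind (x ∈ B) * (ind (y ∈ B) * τ x y) / b ^ 2 =
        (∑ x ∈ B, ∑ y ∈ B, τ x y) / b ^ 2 := by
      simp only [← Finset.sum_div, ← Finset.mul_sum, hind]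
    have e2 : ∑ x, ∑ y, ind (x ∈ B) * τ x y / (b * v) =
        (∑ x ∈ B, ∑ y, τ x y) / (b * v) := by
      simp only [← Finset.sum_div, ← Finset.mul_sum, hind]
    have e3 : ∑ x, ∑ y, ind (y ∈ B) * τ y x / (b * v) =
        (∑ x ∈ B, ∑ y, τ x y) / (b * v) := by
      rw [Finset.sum_comm, e2]
    have e4 : ∑ x, ∑ y, τ x y / v ^ 2 = (∑ x, ∑ y, τ x y) / v ^ 2 := by
      simp only [← Finset.sum_div]
    rw [e1, e2, e3, e4]
    ring
  have hVV : 0 ≤ (∑ x, ∑ y, τ x y) / v ^ 2 := by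
    apply div_nonneg _ (by positivity)
    exact Finset.sum_nonneg fun x _ => Finset.sum_nonneg fun y _ => hnn x y
  have hkey2 : ∑ x, ∑ y, dvg h x * dvg h y * τ x y ≤
      (1 / (q : ℝ) - 1 / (q : ℝ) ^ 2)⁻¹ * C / (β * ((2 : ℝ) ^ k) ^ (d - 2)) := by
    refine hkey.trans ?_
    calc (1 / (q : ℝ) - 1 / (q : ℝ) ^ 2)⁻¹ * (β⁻¹ * ∑ e, h e ^ 2)
        ≤ (1 / (q : ℝ) - 1 / (q : ℝ) ^ 2)⁻¹ * (β⁻¹ * (C / ((2 : ℝ) ^ k) ^ (d - 2))) := by
          gcongr
      _ = _ := by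
          field_simp
  rw [hsum] at hkey2
  linarith

end RPB
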