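import Pool.Agent.RPB.Defs

open Finset FKB
noncomputable section
namespace RPB

theorem pow_psd {I κ : Type*} [Fintype I] [Fintype κ] (v : I → κ → ℝ) (n : ℕ) :
    ∀ b : I → ℝ, 0 ≤ ∑ i, ∑ j, b i * b j * (∑ k, v i k * v j k) ^ n := by
  induction n with
  | zero =>
    intro b
    have h1 : ∑ i, ∑ j, b i * b j * (∑ k, v i k * v j k) ^ 0 = (∑ i, b i) ^ 2 := by
      rw [sq, Finset.sum_mul_sum]
      simp
    rw [h1]
    exact sq_nonneg _
  | succ n ih =>
    intro b
    have h1 : ∑ i, ∑ j, b i * b j * (∑ k, v i k * v j k) ^ (n + 1) =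
        ∑ k, ∑ i, ∑ j, (b i * v i k) * (b j * v j k) * (∑ k, v i k * v j k) ^ n := by
      have e1 : ∑ k, ∑ i, ∑ j, (b i * v i k) * (b j * v j k) * (∑ k, v i k * v j k) ^ n =
          ∑ i, ∑ k, ∑ j, (b i * v i k) * (b j * v j k) * (∑ k, v i k * v j k) ^ n :=
        Finset.sum_comm
      have e2 : ∀ i, ∑ k, ∑ j, (b i * v i k) * (b j * v j k) * (∑ k, v i k * v j k) ^ n =
          ∑ j, ∑ k, (b i * v i k) * (b j * v j k) * (∑ k, v i k * v j k) ^ n :=
        fun i => Finset.sum_comm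
      rw [e1]
      refine Finset.sum_congr rfl fun i _ => ?_
      rw [e2 i]
      refine Finset.sum_congr rfl fun j _ => ?_
      rw [pow_succ, ← mul_assoc, Finset.mul_sum]
      refine Finset.sum_congr rfl fun k _ => ?_
      ring
    rw [h1]
    exact Finset.sum_nonneg fun k _ => ih (fun i => b i * v i k)

/-- the Gaussian kernel is positive semidefinite -/
theorem gauss_psd {I κ : Type*} [Fintype I] [Fintype κ] {c : ℝ} (hc : 0 ≤ c) (v : I → κ → ℝ)
    (a : I → ℝ) :
    0 ≤ ∑ i, ∑ j, a i * a j * Real.exp (-c * ∑ k, (v i k - v j k) ^ 2) := by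
  set b : I → ℝ := fun i => a i * Real.exp (-c * ∑ k, v i k ^ 2) with hb
  have h1 : ∑ i, ∑ j, a i * a j * Real.exp (-c * ∑ k, (v i k - v j k) ^ 2) =
      ∑ i, ∑ j, b i * b j * Real.exp (2 * c * ∑ k, v i k * v j k) := by
    refine Finset.sum_congr rfl fun i _ => Finset.sum_congr rfl fun j _ => ?_
    have h2 : Real.exp (-c * ∑ k, (v i k - v j k) ^ 2) =
        Real.exp (-c * ∑ k, v i k ^ 2) * Real.exp (-c * ∑ k, v j k ^ 2) *
          Real.exp (2 * c * ∑ k, v i k * v j k) := by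
      rw [← Real.exp_add, ← Real.exp_add]
      congr 1
      rw [Finset.mul_sum, Finset.mul_sum, Finset.mul_sum, Finset.mul_sum,
        ← Finset.sum_add_distrib, ← Finset.sum_add_distrib]
      refine Finset.sum_congr rfl fun k _ => ?_
      ring
    rw [h2, hb]
    ring
  rw [h1]
  have h3 : HasSum (fun n : ℕ => (2 * c) ^ n / n.factorial *
      ∑ i, ∑ j, b i * b j * (∑ k, v i k * v j k) ^ n)
      (∑ i, ∑ j, b i * b j * Real.exp (2 * c * ∑ k, v i k * v j k)) := by
    have h4 : ∀ i j, HasSum (fun n : ℕ => b i * b j *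
        ((2 * c * ∑ k, v i k * v j k) ^ n / n.factorial))
        (b i * b j * Real.exp (2 * c * ∑ k, v i k * v j k)) := by
      intro i j
      refine HasSum.mul_left _ ?_
      rw [Real.exp_eq_exp_ℝ]
      exact NormedSpace.expSeries_div_hasSum_exp _
    have h5 := hasSum_sum fun i (_ : i ∈ (univ : Finset I)) =>
      hasSum_sum fun j (_ : j ∈ (univ : Finset I)) => h4 i j
    convert h5 using 2 with n
    rw [Finset.mul_sum]
    refine Finset.sum_congr rfl fun i _ => ?_
    rw [Finset.mul_sum]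
    refine Finset.sum_congr rfl fun j _ => ?_
    rw [mul_pow]
    ring
  exact h3.nonneg fun n => mul_nonneg (by positivity) (pow_psd v n b)

/-- Cauchy-Schwarz for the Gaussian kernel -/
theorem gauss_cs {X Y κ : Type*} [Fintype X] [Fintype Y] [Fintype κ] {c : ℝ} (hc : 0 ≤ c)
    (u : X → κ → ℝ) (v : Y → κ → ℝ) (a : X → ℝ) (b : Y → ℝ) :
    (∑ s, ∑ t, a s * b t * Real.exp (-c * ∑ k, (u s k - v t k) ^ 2)) ^ 2 ≤
      (∑ s, ∑ s', a s * a s' * Real.exp (-c * ∑ k, (u s k - u s' k) ^ 2)) *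
      (∑ t, ∑ t', b t * b t' * Real.exp (-c * ∑ k, (v t k - v t' k) ^ 2)) := by
  set A := ∑ s, ∑ s', a s * a s' * Real.exp (-c * ∑ k, (u s k - u s' k) ^ 2) with hA
  set B := ∑ t, ∑ t', b t * b t' * Real.exp (-c * ∑ k, (v t k - v t' k) ^ 2) with hB
  set M := ∑ s, ∑ t, a s * b t * Real.exp (-c * ∑ k, (u s k - v t k) ^ 2) with hM
  have key : ∀ l : ℝ, 0 ≤ B * (l * l) + (2 * M) * l + A := by
    intro l
    have h1 := gauss_psd hc (Sum.elim u v) (Sum.elim a fun t => l * b t)
    rw [Fintype.sum_sum_type] at h1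
    simp only [Fintype.sum_sum_type, Sum.elim_inl, Sum.elim_inr] at h1
    rw [Finset.sum_add_distrib, Finset.sum_add_distrib] at h1
    have h2 : ∑ s, ∑ t, a s * (l * b t) * Real.exp (-c * ∑ k, (u s k - v t k) ^ 2) = l * M := by
      rw [hM, Finset.mul_sum]
      refine Finset.sum_congr rfl fun s _ => ?_
      rw [Finset.mul_sum]
      refine Finset.sum_congr rfl fun t _ => ?_
      ring
    have h3 : ∑ t, ∑ s, (l * b t) * a s * Real.exp (-c * ∑ k, (v t k - u s k) ^ 2) = l * M := by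
      rw [Finset.sum_comm, ← h2]
      refine Finset.sum_congr rfl fun s _ => Finset.sum_congr rfl fun t _ => ?_
      have h4 : ∑ k, (v t k - u s k) ^ 2 = ∑ k, (u s k - v t k) ^ 2 :=
        Finset.sum_congr rfl fun k _ => by ring
      rw [h4]
      ring
    have h5 : ∑ t, ∑ t', (l * b t) * (l * b t') * Real.exp (-c * ∑ k, (v t k - v t' k) ^ 2) =
        l * l * B := by
      rw [hB, Finset.mul_sum]
      refine Finset.sum_congr rfl fun s _ => ?_
      rw [Finset.mul_sum]
      refine Finset.sum_congr rfl fun t _ => ?_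
      ring
    rw [h2, h3, h5] at h1
    linarith
  have h6 := discrim_le_zero key
  unfold discrim at h6
  nlinarith

end RPB
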