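import Pool.Agent.RPB.Defs
import Pool.Agent.IR.Low

open Finset FKB
noncomputable section
namespace RPB

/-- long-range order of the free measure: lower bound by the square of the free density -/
theorem fP_lower {d : ℕ} (hd : 1 ≤ d) {p q : ℝ} (hq : 1 ≤ q) (hp0 : 0 < p) (hp1 : p ≤ 1)
    (l : ℕ) {ε : ℝ} (hε : 0 < ε) :
    ∃ n0 : ℕ, ∀ n : ℕ, n0 ≤ n → ∀ x ∈ cube (0 : Pt d) l, ∀ y ∈ cube (0 : Pt d) l,
      th0 d p q ^ 2 - ε ≤ fP (cube (0 : Pt d) n) p q x y := by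
  obtain ⟨M, hM⟩ := two_lower hd hq hp0 hp1 l hε
  exact ⟨M, fun n hn x hx y hy => (hM x hx y hy).trans
    (fP_mono (limA_cube_mono hn) hq hp0.le hp1 x y)⟩

end RPB
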